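import Mathlib

/-!
Case `L x * L x = z x` (note 6676 of MP_52f71e_al), the algebra: `b` commutes with `z y * b * z y`.
-/

set_option autoImplicit false

namespace ALoop

theorem lamz_alg {M : Type*} [Group M] {l J z v w d b : M}
    (hJJ : J * J = 1) (hl2 : l * l = z) (hzz : z * z = 1) (hJl : J * l * J = l⁻¹)
    (hJv : J * v * J = w⁻¹) (hb : b = w * v⁻¹) (hvw : Commute v w)
    (hd : l⁻¹ * w * l = d * w) (hdv : Commute d v) (hdw : Commute d w) (hdJ : J * d * J = d)
    (hA : Commute v (l * b * l⁻¹)) (hB : Commute w (z * v * z)) :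
    Commute b (z * b * z) := by
  have hJi : J⁻¹ = J := inv_eq_of_mul_eq_one_left hJJ
  have hzi : z⁻¹ = z := inv_eq_of_mul_eq_one_left hzz
  have hJc : ∀ a c : M, J * (a * c) * J = (J * a * J) * (J * c * J) := by
    intro a c
    calc J * (a * c) * J = J * a * 1 * c * J := by group
      _ = J * a * (J * J) * c * J := by rw [hJJ]
      _ = (J * a * J) * (J * c * J) := by group
  have hJinv : ∀ a : M, J * a⁻¹ * J = (J * a * J)⁻¹ := by
    intro a
    rw [mul_inv_rev, mul_inv_rev, hJi]; group
  have hJw : J * w * J = v⁻¹ := by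
    have h1 : J * (J * v * J) * J = v := by
      calc J * (J * v * J) * J = (J * J) * v * (J * J) := by group
        _ = v := by rw [hJJ]; group
    rw [hJv, hJinv] at h1
    rw [← h1, inv_inv]
  -- (ii)
  have h2 : l * v * l⁻¹ = d⁻¹ * v := by
    have h1 := congrArg (fun t => J * t * J) hd
    rw [hJc, hJc, hJc, hJinv, hJl, inv_inv, hJw, hdJ] at h1
    have h3 : l * v * l⁻¹ = (l * v⁻¹ * l⁻¹)⁻¹ := by group
    rw [h3, h1, mul_inv_rev, inv_inv]
    exact (hdv.inv_left).eq.symm
  have hbv : Commute b v := by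
    rw [hb]; exact (hvw.symm).mul_left (Commute.refl v).inv_left
  have hbw : Commute b w := by
    rw [hb]; exact (Commute.refl w).mul_left hvw.inv_left
  have hdb : Commute d b := by
    rw [hb]; exact hdw.mul_right hdv.inv_right
  -- `del = b * d`
  set del := b * d with hdel
  have hdelv : Commute del v := by rw [hdel]; exact hbv.mul_left hdv
  have hdelw : Commute del w := by rw [hdel]; exact hbw.mul_left hdw
  have e1 : l⁻¹ * w * l = del * v := by
    rw [hd, hdel, hb]
    have h1 : w * v⁻¹ * d * v = w * (v⁻¹ * d * v) := by group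
    rw [h1]
    have h3 : v⁻¹ * d * v = d := by
      calc v⁻¹ * d * v = v⁻¹ * (d * v) := by group
        _ = v⁻¹ * (v * d) := by rw [hdv.eq]
        _ = d := by group
    rw [h3, hdw.eq]
  have e2 : l * v * l⁻¹ = del⁻¹ * w := by
    rw [h2, hdel, mul_inv_rev, hb, mul_inv_rev, inv_inv]
    have h1 : d⁻¹ * (v * w⁻¹) * w = d⁻¹ * v := by group
    rw [h1]
  -- `del` commutes with `l`
  have e3 : l * del * l⁻¹ = del := by
    have h1 : w = (l * del * l⁻¹) * (l * v * l⁻¹) := by
      calc w = l * (l⁻¹ * w * l) * l⁻¹ := by group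
        _ = l * (del * v) * l⁻¹ := by rw [e1]
        _ = (l * del * l⁻¹) * (l * v * l⁻¹) := by group
    rw [e2] at h1
    have h3 : l * del * l⁻¹ = (l * del * l⁻¹ * (del⁻¹ * w)) * (w⁻¹ * del) := by group
    rw [h3, ← h1]; group
  have hdell : Commute del l := by
    have h1 : l * del = del * l := by
      calc l * del = (l * del * l⁻¹) * l := by group
        _ = del * l := by rw [e3]
    exact h1.symm
  have hdelz : Commute del z := by rw [← hl2]; exact hdell.mul_right hdell
  -- (iv)
  have e4 : l * w * l⁻¹ = del * (z * v * z) := by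
    have h1 : l * w * l⁻¹ = z * (l⁻¹ * w * l) * z := by
      have h5 : z * l⁻¹ = l := by rw [← hl2]; group
      have h6 : l * z = l⁻¹ := by
        have h7 : l * l * z = 1 := by rw [hl2, hzz]
        exact eq_inv_of_mul_eq_one_right (by rw [← mul_assoc]; exact h7)
      calc l * w * l⁻¹ = (z * l⁻¹) * w * (l * z) := by rw [h5, h6]
        _ = z * (l⁻¹ * w * l) * z := by group
    rw [h1, e1]
    calc z * (del * v) * z = (z * del) * v * z := by group
      _ = (del * z) * v * z := by rw [hdelz.eq]
      _ = del * (z * v * z) := by group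
  -- (v)
  have e5 : l * b * l⁻¹ = del * (z * v * z) * (w⁻¹ * del) := by
    calc l * b * l⁻¹ = (l * w * l⁻¹) * (l * v * l⁻¹)⁻¹ := by rw [hb]; group
      _ = del * (z * v * z) * (w⁻¹ * del) := by rw [e4, e2]; group
  -- (vi)
  have e6 : Commute v (z * v * z) := by
    have h1 : z * v * z = del⁻¹ * (l * b * l⁻¹) * (del⁻¹ * w) := by rw [e5]; group
    rw [h1]
    exact ((hdelv.symm.inv_right).mul_right hA).mul_right
      ((hdelv.symm.inv_right).mul_right hvw)
  -- `J` commutes with `z`
  have hJz : J * z * J = z := by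
    rw [← hl2, hJc, hJl]
    have h1 : (l * l) * (l * l) = 1 := by rw [hl2, hzz]
    have h3 : l⁻¹ * l⁻¹ = (l * l)⁻¹ := by group
    rw [h3, inv_eq_of_mul_eq_one_left h1]
  have hJzvz : J * (z * v * z) * J = z * w⁻¹ * z := by
    rw [hJc, hJc, hJz, hJv]
  have hconj : ∀ {a c : M}, Commute a c → Commute (J * a * J) (J * c * J) := by
    intro a c hac
    show (J * a * J) * (J * c * J) = (J * c * J) * (J * a * J)
    rw [← hJc, ← hJc, hac.eq]
  -- (vii)
  have e7 : Commute w (z * w * z) := by
    have h1 := hconj e6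
    rw [hJv, hJzvz] at h1
    have h3 : (z * w⁻¹ * z) = (z * w * z)⁻¹ := by rw [mul_inv_rev, mul_inv_rev, hzi]; group
    rw [h3] at h1
    exact (Commute.inv_inv_iff).1 h1
  have e8 : Commute v (z * w * z) := by
    have h1 := hconj hB
    rw [hJw, hJzvz] at h1
    have h3 : (z * w⁻¹ * z) = (z * w * z)⁻¹ := by rw [mul_inv_rev, mul_inv_rev, hzi]; group
    rw [h3] at h1
    exact (Commute.inv_inv_iff).1 h1
  have h9 : z * b * z = (z * w * z) * (z * v * z)⁻¹ := by
    rw [hb, mul_inv_rev, mul_inv_rev, hzi]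
    calc z * (w * v⁻¹) * z = z * w * 1 * v⁻¹ * z := by group
      _ = z * w * (z * z) * v⁻¹ * z := by rw [hzz]
      _ = z * w * z * (z * (v⁻¹ * z)) := by group
  have c1 : Commute b (z * w * z) := by rw [hb]; exact e7.mul_left e8.inv_left
  have c2 : Commute b (z * v * z) := by rw [hb]; exact hB.mul_left e6.inv_left
  rw [h9]
  exact c1.mul_right c2.inv_right

end ALoop
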